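import Pool.Agent.H90.LP.SMEa

/-!
# Loop percolation, row SME: real inequalities
-/

set_option autoImplicit false

namespace Pool.Agent.H90.LP

theorem real_same (a κ C M n L Ni mi lg : ℝ) (ha : 0 < a) (hκ : 0 < κ) (hC : 0 < C) (hM : 1 ≤ M)
    (hn : 0 < n) (hup : Ni * mi ≤ n / (3 * M)) (hlg0 : 0 ≤ lg) (hlg : lg ≤ L) :
    Ni * (a * κ * mi) + Ni * (a ^ 2 * κ ^ 2 * C * mi / M * (5 * lg)) ≤
      a * κ * n / (3 * M) + 5 / 3 * (a ^ 2 * κ ^ 2 * C * n * L / M ^ 2) := by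
  have hM0 : 0 < M := by linarith
  have e1 : Ni * (a * κ * mi) ≤ a * κ * n / (3 * M) := by
    have : Ni * (a * κ * mi) = a * κ * (Ni * mi) := by ring
    rw [this, mul_div_assoc]
    exact mul_le_mul_of_nonneg_left hup (by positivity)
  have e2 : Ni * (a ^ 2 * κ ^ 2 * C * mi / M * (5 * lg)) ≤
      5 / 3 * (a ^ 2 * κ ^ 2 * C * n * L / M ^ 2) := by
    calc Ni * (a ^ 2 * κ ^ 2 * C * mi / M * (5 * lg))
        = 5 * (a ^ 2 * κ ^ 2 * C / M) * ((Ni * mi) * lg) := by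
          field_simp
      _ ≤ 5 * (a ^ 2 * κ ^ 2 * C / M) * ((n / (3 * M)) * L) := by
          apply mul_le_mul_of_nonneg_left _ (by positivity)
          exact mul_le_mul hup hlg hlg0 (by positivity)
      _ = _ := by
          field_simp
  linarith

theorem real_cross (a κ C M n L Ni mi Nj mj lg : ℝ) (ha : 0 < a) (ha12 : a ≤ 1 / 12) (hκ : 0 < κ)
    (hC : 0 < C) (hM : 1 ≤ M) (hn : 0 < n) (hNi : 0 ≤ Ni) (hmi : 0 < mi) (hmj : 0 < mj)
    (hupi : Ni * mi ≤ n / (3 * M)) (hupj : Nj * mj ≤ n / (3 * M)) (hlg0 : 0 ≤ lg) (hlg : lg ≤ L)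
    (hdec : mj ≤ 2 * a ^ 3 * mi) :
    Nj * (2 * a ^ 2 * κ ^ 2 * C * mj / (3 * M) * (5 * lg)) +
      Ni * (κ * mj * (2 * a ^ 2 * (4 / 3 * (mi / mj) + 1) + 2)) ≤
      10 / 9 * (a ^ 2 * κ ^ 2 * C * n * L / M ^ 2) + 4 / 3 * (a ^ 2 * κ * n / M) := by
  have hM0 : 0 < M := by linarith
  have e1 : Nj * (2 * a ^ 2 * κ ^ 2 * C * mj / (3 * M) * (5 * lg)) ≤
      10 / 9 * (a ^ 2 * κ ^ 2 * C * n * L / M ^ 2) := by
    calc Nj * (2 * a ^ 2 * κ ^ 2 * C * mj / (3 * M) * (5 * lg))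
        = 10 / 3 * (a ^ 2 * κ ^ 2 * C / M) * ((Nj * mj) * lg) := by
          field_simp
          ring
      _ ≤ 10 / 3 * (a ^ 2 * κ ^ 2 * C / M) * ((n / (3 * M)) * L) := by
          apply mul_le_mul_of_nonneg_left _ (by positivity)
          exact mul_le_mul hupj hlg hlg0 (by positivity)
      _ = _ := by
          field_simp
          ring
  have e2 : Ni * (κ * mj * (2 * a ^ 2 * (4 / 3 * (mi / mj) + 1) + 2)) ≤
      4 / 3 * (a ^ 2 * κ * n / M) := by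
    have f1 : Ni * (κ * mj * (2 * a ^ 2 * (4 / 3 * (mi / mj) + 1) + 2)) =
        Ni * κ * (8 / 3 * a ^ 2 * mi + (2 * a ^ 2 + 2) * mj) := by
      field_simp
      ring
    have f3 : (2 * a ^ 2 + 2) * mj ≤ 4 / 3 * a ^ 2 * mi := by
      have g1 : (2 * a ^ 2 + 2) * mj ≤ (2 * a ^ 2 + 2) * (2 * a ^ 3 * mi) :=
        mul_le_mul_of_nonneg_left hdec (by positivity)
      have g2 : (2 * a ^ 2 + 2) * (2 * a) ≤ 4 / 3 := by
        have : a ^ 2 ≤ (1/12)^2 := pow_le_pow_left₀ ha.le ha12 2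
        nlinarith
      have g3 : (2 * a ^ 2 + 2) * (2 * a ^ 3 * mi) =
          ((2 * a ^ 2 + 2) * (2 * a)) * (a ^ 2 * mi) := by ring
      rw [g3] at g1
      have g4 := mul_le_mul_of_nonneg_right g2 (show 0 ≤ a ^ 2 * mi by positivity)
      linarith
    have f4 : 8 / 3 * a ^ 2 * mi + (2 * a ^ 2 + 2) * mj ≤ 4 * a ^ 2 * mi := by linarith
    rw [f1]
    calc Ni * κ * (8 / 3 * a ^ 2 * mi + (2 * a ^ 2 + 2) * mj)
        ≤ Ni * κ * (4 * a ^ 2 * mi) := mul_le_mul_of_nonneg_left f4 (by positivity)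
      _ = 4 * a ^ 2 * κ * (Ni * mi) := by ring
      _ ≤ 4 * a ^ 2 * κ * (n / (3 * M)) := mul_le_mul_of_nonneg_left hupi (by positivity)
      _ = _ := by
          field_simp
  linarith

theorem real_final (a κ C M n L I : ℝ) (ha : 0 < a) (hκ : 0 < κ) (hC : 0 < C) (hM : 1 ≤ M)
    (hn : 0 < n) (hL1 : 1 ≤ L) (hI : 1 ≤ I) (hsm : 48 * (κ * C + 1) * a * I ^ 2 * L ≤ 1) :
    I * (a * κ * n / (3 * M) + 5 / 3 * (a ^ 2 * κ ^ 2 * C * n * L / M ^ 2) +
      I * (10 / 9 * (a ^ 2 * κ ^ 2 * C * n * L / M ^ 2) + 4 / 3 * (a ^ 2 * κ * n / M))) ≤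
      2 * I * a * κ * n / (3 * M) := by
  have hM0 : 0 < M := by linarith
  have hL0 : 0 < L := by linarith
  set u : ℝ := a * (κ * C) * L / M with hu
  have hu1 : u ≤ a * (κ * C) * L := div_le_self (by positivity) hM
  have hu0 : 0 ≤ u := by positivity
  set q : ℝ := a * κ * n / M with hq
  have hq0 : 0 ≤ q := by positivity
  have hD' : a * κ * n / (3 * M) + 5 / 3 * (a ^ 2 * κ ^ 2 * C * n * L / M ^ 2) =
      q * (1 / 3 + 5 / 3 * u) := by
    rw [hq, hu]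
    field_simp
  have hO' : 10 / 9 * (a ^ 2 * κ ^ 2 * C * n * L / M ^ 2) + 4 / 3 * (a ^ 2 * κ * n / M) =
      q * (10 / 9 * u + 4 / 3 * a) := by
    rw [hq, hu]
    field_simp
  have hT : 2 * I * a * κ * n / (3 * M) = I * (q * (2 / 3)) := by
    rw [hq]
    field_simp
  rw [hD', hO', hT]
  apply mul_le_mul_of_nonneg_left _ (by linarith)
  have hkey : 1 / 3 + 5 / 3 * u + I * (10 / 9 * u + 4 / 3 * a) ≤ 2 / 3 := by
    have g0 : 0 ≤ a * L := by positivity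
    have g1 : I * (a * L) ≤ I^2 * (a * L) := by
      apply mul_le_mul_of_nonneg_right _ g0
      nlinarith
    have g2 : 48 * (κ * C + 1) * (I * (a * L)) ≤ 1 := by
      calc 48 * (κ * C + 1) * (I * (a * L)) ≤ 48 * (κ * C + 1) * (I^2 * (a * L)) :=
            mul_le_mul_of_nonneg_left g1 (by positivity)
        _ = 48 * (κ * C + 1) * a * I ^ 2 * L := by ring
        _ ≤ 1 := hsm
    have g3 : I * u ≤ I * (a * L) * (κ * C) := by
      have := mul_le_mul_of_nonneg_left hu1 (show 0 ≤ I by linarith)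
      linarith
    have g4 : u ≤ I * u := by nlinarith
    have g5 : I * a ≤ I * (a * L) := by
      have : a ≤ a * L := by nlinarith
      exact mul_le_mul_of_nonneg_left this (by linarith)
    have hI0 : 0 < I := by linarith
    have g6 : 0 ≤ I * (a * L) * (κ * C) := by positivity
    have g7 : 0 ≤ I * (a * L) := by positivity
    linarith
  have := mul_le_mul_of_nonneg_left hkey hq0
  linarith

end Pool.Agent.H90.LP
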