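import Pool.Agent.H90.LP.SMEb
import Pool.Agent.H90.LP.SMEc

/-!
# Loop percolation, row SME: the mean of the random energy
-/

set_option autoImplicit false

open MeasureTheory ProbabilityTheory Filter Topology
open scoped ENNReal NNReal

namespace Pool.Agent.H90.LP

open Pool.Agent.H62.LP

variable {Ω : Type} [MeasurableSpace Ω]

open Classical in
/-- The contribution of one pair. -/
noncomputable def JJ (P : Measure Ω) (a : ℝ≥0) (A : ℕ → ℕ → Set Ω)
    (X : ℕ → ℕ → ℕ → ℕ → Ω → ℝ≥0∞) (i k j l : ℕ) : ℝ≥0∞ :=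
  ∫⁻ ω, (if ω ∈ A i k ∧ ω ∈ A j l then
    (a : ℝ≥0∞) / P (A i k) * ((a : ℝ≥0∞) / P (A j l)) * X i k j l ω else 0) ∂P

theorem JJ_symm (P : Measure Ω) (a : ℝ≥0) (A : ℕ → ℕ → Set Ω)
    (X : ℕ → ℕ → ℕ → ℕ → Ω → ℝ≥0∞) (hX : ∀ i k j l ω, X i k j l ω = X j l i k ω) (i k j l : ℕ) :
    JJ P a A X i k j l = JJ P a A X j l i k := by
  unfold JJ
  apply lintegral_congr
  intro ω
  by_cases h : ω ∈ A i k ∧ ω ∈ A j l
  · rw [if_pos h, if_pos h.symm, hX i k j l ω, mul_comm ((a : ℝ≥0∞) / P (A i k))]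
  · rw [if_neg h, if_neg (fun hh => h hh.symm)]

theorem JJ_sum (P : Measure Ω) (I : ℕ) (N : ℕ → ℕ) (a : ℝ≥0) (A : ℕ → ℕ → Set Ω)
    (X : ℕ → ℕ → ℕ → ℕ → Ω → ℝ≥0∞) (hA : ∀ i k, MeasurableSet (A i k))
    (hX : ∀ i k j l, Measurable (X i k j l)) :
    ∫⁻ ω, EW P I N A a X ω ∂P = ∑ i ∈ Finset.Icc 1 I, ∑ j ∈ Finset.Icc 1 I,
      ∑ k ∈ Finset.Icc 1 (N i), ∑ l ∈ Finset.Icc 1 (N j), JJ P a A X i k j l := by
  classical
  have hm : ∀ i k j l, Measurable (fun ω => if ω ∈ A i k ∧ ω ∈ A j l then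
      (a : ℝ≥0∞) / P (A i k) * ((a : ℝ≥0∞) / P (A j l)) * X i k j l ω else 0) := by
    intro i k j l
    exact Measurable.ite ((hA i k).inter (hA j l)) ((hX i k j l).const_mul _) measurable_const
  unfold EW
  rw [lintegral_finsetSum]
  swap
  · intro i _
    refine Finset.measurable_fun_sum _ (fun k _ => Finset.measurable_fun_sum _ (fun j _ =>
      Finset.measurable_fun_sum _ (fun l _ => hm i k j l)))
  apply Finset.sum_congr rfl
  intro i _
  rw [lintegral_finsetSum]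
  swap
  · intro k _
    refine Finset.measurable_fun_sum _ (fun j _ =>
      Finset.measurable_fun_sum _ (fun l _ => hm i k j l))
  rw [Finset.sum_comm]
  apply Finset.sum_congr rfl
  intro k _
  rw [lintegral_finsetSum]
  swap
  · intro j _
    exact Finset.measurable_fun_sum _ (fun l _ => hm i k j l)
  apply Finset.sum_congr rfl
  intro j _
  rw [lintegral_finsetSum]
  swap
  · intro l _
    exact hm i k j l
  rfl

theorem sumsum_ofReal (s t : Finset ℕ) (r : ℕ → ℕ → ℝ) (hr : ∀ k ∈ s, ∀ l ∈ t, 0 ≤ r k l) :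
    ∑ k ∈ s, ∑ l ∈ t, ENNReal.ofReal (r k l) = ENNReal.ofReal (∑ k ∈ s, ∑ l ∈ t, r k l) := by
  rw [ENNReal.ofReal_sum_of_nonneg (fun k hk => Finset.sum_nonneg (fun l hl => hr k hk l hl))]
  apply Finset.sum_congr rfl
  intro k hk
  rw [ENNReal.ofReal_sum_of_nonneg (fun l hl => hr k hk l hl)]

/-- A pair of independent events. -/
theorem indep_pair (P : Measure Ω) [IsProbabilityMeasure P] (a : ℝ≥0) (ha : 0 < a)
    (A : ℕ → ℕ → Set Ω) (X : ℕ → ℕ → ℕ → ℕ → Ω → ℝ≥0∞) (hA : ∀ i k, MeasurableSet (A i k))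
    (i k j l : ℕ) (h1 : (a:ℝ≥0∞) ≤ P (A i k)) (h2 : (a:ℝ≥0∞) ≤ P (A j l))
    (h3 : P (A i k ∩ A j l) = P (A i k) * P (A j l)) (D : ℕ) (hD : D ≠ 0) (c : ℝ≥0∞)
    (h4 : ∀ ω, ω ∈ A i k → ω ∈ A j l → X i k j l ω * (D : ℕ) ≤ c) :
    JJ P a A X i k j l ≤ a * a * (c / (D : ℝ≥0∞)) := by
  classical
  obtain ⟨q1, _⟩ := quot ha h1 (measure_ne_top P _)
  obtain ⟨q2, _⟩ := quot ha h2 (measure_ne_top P _)
  have h5 : ∀ ω, ω ∈ A i k → ω ∈ A j l → X i k j l ω ≤ c / (D : ℝ≥0∞) := by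
    intro ω m1 m2
    rw [ENNReal.le_div_iff_mul_le (Or.inl (by exact_mod_cast hD))
      (Or.inl (ENNReal.natCast_ne_top _))]
    exact h4 ω m1 m2
  refine (pairbound P (A i k) (A j l) (hA i k) (hA j l) _ _ _ _ h5).trans ?_
  rw [h3]
  apply le_of_eq
  calc (a:ℝ≥0∞) / P (A i k) * ((a:ℝ≥0∞) / P (A j l)) * (c / (D : ℝ≥0∞)) * (P (A i k) * P (A j l))
      = ((a:ℝ≥0∞) / P (A i k) * P (A i k)) * ((a:ℝ≥0∞) / P (A j l) * P (A j l)) *
          (c / (D : ℝ≥0∞)) := by ring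
    _ = _ := by rw [q1, q2]

/-- The terms of one scale. -/
theorem same_scale (P : Measure Ω) [IsProbabilityMeasure P] (M I : ℕ) (hM : 1 ≤ M)
    (N m : ℕ → ℕ) (a κ C₀ : ℝ≥0) (ha : 0 < a) (A : ℕ → ℕ → Set Ω)
    (X : ℕ → ℕ → ℕ → ℕ → Ω → ℝ≥0∞) (hE : Events P M I N m a κ C₀ A X) (i : ℕ) (hi : 1 ≤ i)
    (hiI : i ≤ I) :
    ∑ k ∈ Finset.Icc 1 (N i), ∑ l ∈ Finset.Icc 1 (N i), JJ P a A X i k i l ≤
      ENNReal.ofReal (N i * (a * κ * m i) +
        N i * (a ^ 2 * κ ^ 2 * C₀ * m i / M * (5 * (1 + Real.log (N i))))) := by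
  classical
  have haR : (0:ℝ) < a := ha
  have hMR : (0:ℝ) < M := by exact_mod_cast hM
  let r : ℕ → ℕ → ℝ := fun k l => (if l = k then (a:ℝ) * κ * m i else 0) +
    (a:ℝ) ^ 2 * κ ^ 2 * C₀ * m i / M * (if (2/3:ℝ) ≤ |(l:ℝ) - k| then 1/|(l:ℝ) - k| else 0)
  have hr : ∀ k l, 0 ≤ r k l := by
    intro k l
    have e1 : 0 ≤ (if l = k then (a:ℝ) * κ * m i else 0) := by
      split_ifs
      · positivity
      · exact le_rfl
    have e2 : 0 ≤ (if (2/3:ℝ) ≤ |(l:ℝ) - k| then 1/|(l:ℝ) - k| else 0) := by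
      split_ifs
      · positivity
      · exact le_rfl
    exact add_nonneg e1 (mul_nonneg (by positivity) e2)
  have hJ : ∀ k ∈ Finset.Icc 1 (N i), ∀ l ∈ Finset.Icc 1 (N i),
      JJ P a A X i k i l ≤ ENNReal.ofReal (r k l) := by
    intro k hk l hl
    rw [Finset.mem_Icc] at hk hl
    by_cases h : l = k
    · subst h
      obtain ⟨q1, q2⟩ := quot ha (hE.prob i l hi hiI hl.1 hl.2) (measure_ne_top P _)
      have e1 : JJ P a A X i l i l ≤ (a:ℝ≥0∞) / P (A i l) * ((a:ℝ≥0∞) / P (A i l)) * (κ * m i) *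
          P (A i l ∩ A i l) :=
        pairbound P _ _ (hE.meas i l) (hE.meas i l) _ _ _ _
          (fun ω m1 _ => hE.diag i l ω hi hiI hl.1 hl.2 m1)
      refine e1.trans ?_
      have e2 : (a:ℝ≥0∞) / P (A i l) * ((a:ℝ≥0∞) / P (A i l)) * (κ * m i) *
          P (A i l ∩ A i l) = (a:ℝ≥0∞) / P (A i l) * (a * (κ * m i)) := by
        rw [Set.inter_self]
        calc (a:ℝ≥0∞) / P (A i l) * ((a:ℝ≥0∞) / P (A i l)) * (κ * m i) * P (A i l)
            = (a:ℝ≥0∞) / P (A i l) * (((a:ℝ≥0∞) / P (A i l) * P (A i l)) * (κ * m i)) := by ring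
          _ = _ := by rw [q1]
      rw [e2]
      calc (a:ℝ≥0∞) / P (A i l) * (a * (κ * m i)) ≤ 1 * (a * (κ * m i)) := mul_le_mul_left q2 _
        _ = ENNReal.ofReal (a * κ * m i) := by
          rw [one_mul, ENNReal.ofReal_mul (by positivity), ENNReal.ofReal_mul (by positivity),
            ENNReal.ofReal_coe_nnreal, ENNReal.ofReal_coe_nnreal, ENNReal.ofReal_natCast, mul_assoc]
        _ ≤ _ := by
          apply ENNReal.ofReal_le_ofReal
          change _ ≤ (if l = l then (a:ℝ) * κ * m i else 0) + _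
          rw [if_pos rfl]
          have e4 : (0:ℝ) ≤ (if (2/3:ℝ) ≤ |(l:ℝ) - l| then 1/|(l:ℝ) - l| else 0) := by
            split_ifs
            · positivity
            · exact le_rfl
          have e5 : 0 ≤ (a:ℝ) ^ 2 * κ ^ 2 * C₀ * m i / M *
            (if (2/3:ℝ) ≤ |(l:ℝ) - l| then 1/|(l:ℝ) - l| else 0) := mul_nonneg (by positivity) e4
          linarith
    · have hkl : k ≠ l := fun hh => h hh.symm
      have hne : ((k:ℤ) - l).natAbs ≠ 0 := by omega
      have hD : M * ((k:ℤ) - l).natAbs ≠ 0 := mul_ne_zero (by omega) hne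
      have e1 := indep_pair P a ha A X hE.meas i k i l (hE.prob i k hi hiI hk.1 hk.2)
        (hE.prob i l hi hiI hl.1 hl.2) (hE.same i k l hi hiI hk.1 hk.2 hl.1 hl.2 hkl)
        (M * ((k:ℤ) - l).natAbs) hD _ (fun ω m1 m2 => hE.sameX i k l ω hi hiI hk.1 hk.2 hl.1 hl.2
          hkl m1 m2)
      refine e1.trans ?_
      have habs : (((k:ℤ) - l).natAbs : ℝ) = |(l:ℝ) - k| := by
        rw [Nat.cast_natAbs]
        push_cast
        exact abs_sub_comm _ _
      have h23 : (2/3:ℝ) ≤ |(l:ℝ) - k| := by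
        rw [← habs]
        have : (1:ℝ) ≤ (((k:ℤ) - l).natAbs : ℝ) := by exact_mod_cast Nat.one_le_iff_ne_zero.mpr hne
        linarith
      have hpos : 0 < |(l:ℝ) - k| := by linarith
      have e2 : r k l = a * a * (κ ^ 2 * C₀ * m i / (M * ((k:ℤ) - l).natAbs : ℕ)) := by
        change (if l = k then (a:ℝ) * κ * m i else 0) + _ = _
        rw [if_neg h, if_pos h23, zero_add]
        push_cast
        rw [habs]
        field_simp
      rw [e2, ENNReal.ofReal_mul (by positivity), ENNReal.ofReal_mul (by positivity),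
        ENNReal.ofReal_div_of_pos (by exact_mod_cast Nat.pos_of_ne_zero hD),
        ENNReal.ofReal_mul (by positivity), ENNReal.ofReal_mul (by positivity),
        ENNReal.ofReal_pow (by positivity), ENNReal.ofReal_coe_nnreal, ENNReal.ofReal_coe_nnreal,
        ENNReal.ofReal_coe_nnreal, ENNReal.ofReal_natCast, ENNReal.ofReal_natCast]
  refine (Finset.sum_le_sum (fun k hk => Finset.sum_le_sum (fun l hl => hJ k hk l hl))).trans ?_
  rw [sumsum_ofReal _ _ r (fun k _ l _ => hr k l)]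
  apply ENNReal.ofReal_le_ofReal
  have e3 : ∀ k ∈ Finset.Icc 1 (N i), ∑ l ∈ Finset.Icc 1 (N i), r k l ≤
      a * κ * m i + a ^ 2 * κ ^ 2 * C₀ * m i / M * (5 * (1 + Real.log (N i))) := by
    intro k hk
    change ∑ l ∈ Finset.Icc 1 (N i), ((if l = k then (a:ℝ) * κ * m i else 0) +
      (a:ℝ) ^ 2 * κ ^ 2 * C₀ * m i / M *
        (if (2/3:ℝ) ≤ |(l:ℝ) - k| then 1/|(l:ℝ) - k| else 0)) ≤ _
    rw [Finset.sum_add_distrib, ← Finset.mul_sum, Finset.sum_ite_eq', if_pos hk]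
    have := twosided (N i) (k:ℝ)
    gcongr
  calc ∑ k ∈ Finset.Icc 1 (N i), ∑ l ∈ Finset.Icc 1 (N i), r k l
      ≤ ∑ k ∈ Finset.Icc 1 (N i), ((a:ℝ) * κ * m i +
          a ^ 2 * κ ^ 2 * C₀ * m i / M * (5 * (1 + Real.log (N i)))) := Finset.sum_le_sum e3
    _ = _ := by
      rw [Finset.sum_const, nsmul_eq_mul, Nat.card_Icc, Nat.add_sub_cancel]
      ring

/-- The terms of two different scales. -/
theorem cross_scale (P : Measure Ω) [IsProbabilityMeasure P] (M I : ℕ) (hM : 1 ≤ M)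
    (N m : ℕ → ℕ) (a κ C₀ : ℝ≥0) (ha : 0 < a) (A : ℕ → ℕ → Set Ω)
    (X : ℕ → ℕ → ℕ → ℕ → Ω → ℝ≥0∞) (hE : Events P M I N m a κ C₀ A X) (i j : ℕ) (hi : 1 ≤ i)
    (hij : i < j) (hj : j ≤ I) (hmi : 1 ≤ m i) (hmj : 1 ≤ m j) :
    ∑ k ∈ Finset.Icc 1 (N i), ∑ l ∈ Finset.Icc 1 (N j), JJ P a A X i k j l ≤
      ENNReal.ofReal (N j * (2 * a ^ 2 * κ ^ 2 * C₀ * m j / (3 * M) * (5 * (1 + Real.log (N i)))) +
        N i * (κ * m j * (2 * a ^ 2 * (4 / 3 * (m i / m j) + 1) + 2))) := by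
  classical
  have haR : (0:ℝ) < a := ha
  have hMR : (0:ℝ) < M := by exact_mod_cast hM
  have hmiR : (0:ℝ) < m i := by exact_mod_cast hmi
  have hmjR : (0:ℝ) < m j := by exact_mod_cast hmj
  have hj1 : 1 ≤ j := by omega
  have hiI : i ≤ I := by omega
  let D : ℕ → ℕ → ℕ := fun k l => ((3 * M * m i * k : ℤ) - 3 * M * m j * l).natAbs
  let x : ℕ → ℝ := fun l => (m j : ℝ) * l / m i
  have hDx : ∀ k l, (D k l : ℝ) = 3 * M * m i * |(k:ℝ) - x l| := by
    intro k l
    have e1 : (D k l : ℝ) = |(3 * M * m i * k : ℝ) - 3 * M * m j * l| := by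
      change ((((3 * M * m i * k : ℤ) - 3 * M * m j * l).natAbs : ℕ) : ℝ) = _
      rw [Nat.cast_natAbs]
      push_cast
      rfl
    rw [e1]
    have e2 : (3 * M * m i * k : ℝ) - 3 * M * m j * l = 3 * M * m i * ((k:ℝ) - x l) := by
      change (3 * M * m i * k : ℝ) - 3 * M * m j * l = 3 * M * m i * ((k:ℝ) - (m j : ℝ) * l / m i)
      field_simp
    rw [e2, abs_mul, abs_of_pos (by positivity)]
  have hfar : ∀ k l, 2 * M * m i ≤ D k l ↔ (2/3:ℝ) ≤ |(k:ℝ) - x l| := by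
    intro k l
    rw [← Nat.cast_le (α := ℝ), hDx]
    push_cast
    have hp : (0:ℝ) < 3 * M * m i := by positivity
    constructor
    · intro h
      by_contra hc
      push Not at hc
      have := mul_lt_mul_of_pos_left hc hp
      linarith
    · intro h
      have := mul_le_mul_of_nonneg_left h hp.le
      linarith
  let c : ℝ := 2 * a ^ 2 * κ ^ 2 * C₀ * m j / (3 * M)
  have hc : 0 ≤ c := by positivity
  let r : ℕ → ℕ → ℝ := fun k l => c * (if (2/3:ℝ) ≤ |(k:ℝ) - x l| then 1/|(k:ℝ) - x l| else 0)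
  have hr : ∀ k l, 0 ≤ r k l := by
    intro k l
    apply mul_nonneg hc
    split_ifs
    · positivity
    · exact le_rfl
  have hJ : ∀ k ∈ Finset.Icc 1 (N i), ∀ l ∈ Finset.Icc 1 (N j), 2 * M * m i ≤ D k l →
      JJ P a A X i k j l ≤ ENNReal.ofReal (r k l) := by
    intro k hk l hl hf
    rw [Finset.mem_Icc] at hk hl
    have hD0 : D k l ≠ 0 := by
      have : 0 < 2 * M * m i := by positivity
      omega
    have e1 := indep_pair P a ha A X hE.meas i k j l (hE.prob i k hi hiI hk.1 hk.2)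
      (hE.prob j l hj1 hj hl.1 hl.2) (hE.far i k j l hi hij hj hk.1 hk.2 hl.1 hl.2 hf)
      (D k l) hD0 _ (fun ω m1 m2 => hE.farX i k j l ω hi hij hj hk.1 hk.2 hl.1 hl.2 hf m1 m2)
    refine e1.trans ?_
    have hf' := (hfar k l).mp hf
    have hpos : 0 < |(k:ℝ) - x l| := by linarith
    have e2 : r k l = a * a * (2 * κ ^ 2 * C₀ * m i * m j / (D k l : ℕ)) := by
      change c * (if (2/3:ℝ) ≤ |(k:ℝ) - x l| then 1/|(k:ℝ) - x l| else 0) = _
      rw [if_pos hf', hDx]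
      change 2 * a ^ 2 * κ ^ 2 * C₀ * m j / (3 * M) * (1 / |(k:ℝ) - x l|) = _
      field_simp
    rw [e2, ENNReal.ofReal_mul (by positivity), ENNReal.ofReal_mul (by positivity),
      ENNReal.ofReal_div_of_pos (by exact_mod_cast Nat.pos_of_ne_zero hD0),
      ENNReal.ofReal_mul (by positivity), ENNReal.ofReal_mul (by positivity),
      ENNReal.ofReal_mul (by positivity), ENNReal.ofReal_mul (by positivity),
      ENNReal.ofReal_pow (by positivity), ENNReal.ofReal_coe_nnreal, ENNReal.ofReal_coe_nnreal,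
      ENNReal.ofReal_coe_nnreal, ENNReal.ofReal_natCast, ENNReal.ofReal_natCast,
      ENNReal.ofReal_natCast, ENNReal.ofReal_ofNat]
  have hW : ∀ k ∈ Finset.Icc 1 (N i),
      ∑ l ∈ (Finset.Icc 1 (N j)).filter (fun l => ¬ 2 * M * m i ≤ D k l), JJ P a A X i k j l ≤
      ENNReal.ofReal (κ * m j * (2 * a ^ 2 * (4 / 3 * (m i / m j) + 1) + 2)) := by
    intro k hk
    rw [Finset.mem_Icc] at hk
    set W := (Finset.Icc 1 (N j)).filter (fun l => ¬ 2 * M * m i ≤ D k l) with hWd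
    have hmem : ∀ l ∈ W, 1 ≤ l ∧ l ≤ N j := by
      intro l hl
      rw [hWd, Finset.mem_filter, Finset.mem_Icc] at hl
      exact hl.1
    have e1 := nearbound P (A i k) (hE.meas i k) (A j) (hE.meas j) W a ha
      (hE.prob i k hi hiI hk.1 hk.2) (fun l hl => hE.prob j l hj1 hj (hmem l hl).1 (hmem l hl).2)
      (fun l hl l' hl' hne => hE.same j l l' hj1 hj (hmem l hl).1 (hmem l hl).2 (hmem l' hl').1
        (hmem l' hl').2 hne) (X i k j) (κ * m j)
      (fun l hl ω m1 m2 => hE.near i k j l ω hi hij hj hk.1 hk.2 (hmem l hl).1 (hmem l hl).2 m1 m2)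
    refine (le_trans (le_of_eq ?_) e1).trans ?_
    · rfl
    have hcard : (W.card : ℝ) ≤ 4 / 3 * (m i / m j) + 1 := by
      have e2 : W ⊆ (Finset.Icc 1 (N j)).filter
          (fun l : ℕ => |(l:ℝ) - (m i : ℝ) * k / m j| < 2 / 3 * (m i / m j)) := by
        intro l hl
        rw [hWd, Finset.mem_filter] at hl
        rw [Finset.mem_filter]
        refine ⟨hl.1, ?_⟩
        have e3 := hl.2
        rw [hfar] at e3
        push Not at e3
        have e4 : (l:ℝ) - (m i : ℝ) * k / m j = -((m i : ℝ) / m j * ((k:ℝ) - x l)) := by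
          change (l:ℝ) - (m i : ℝ) * k / m j = -((m i : ℝ) / m j * ((k:ℝ) - (m j : ℝ) * l / m i))
          field_simp
          ring
        rw [e4, abs_neg, abs_mul, abs_of_pos (by positivity)]
        have hp : (0:ℝ) < (m i : ℝ) / m j := by positivity
        have := mul_lt_mul_of_pos_left e3 hp
        linarith
      have e5 := nearcard (N j) ((m i : ℝ) * k / m j) (2 / 3 * (m i / m j)) (by positivity)
      have e6 : (W.card : ℝ) ≤ ((((Finset.Icc 1 (N j)).filter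
          (fun l : ℕ => |(l:ℝ) - (m i : ℝ) * k / m j| < 2 / 3 * (m i / m j))).card : ℕ) : ℝ) := by
        exact_mod_cast Finset.card_le_card e2
      linarith
    have e7 : (κ:ℝ≥0∞) * m j * (2 * ((a:ℝ≥0∞) * W.card) * a + 2) =
        ENNReal.ofReal (κ * m j * (2 * (a * W.card) * a + 2)) := by
      rw [ENNReal.ofReal_mul (by positivity), ENNReal.ofReal_mul (by positivity),
        ENNReal.ofReal_add (by positivity) (by norm_num), ENNReal.ofReal_mul (by positivity),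
        ENNReal.ofReal_mul (by positivity), ENNReal.ofReal_mul (by positivity),
        ENNReal.ofReal_coe_nnreal, ENNReal.ofReal_coe_nnreal, ENNReal.ofReal_natCast,
        ENNReal.ofReal_natCast, ENNReal.ofReal_ofNat]
    rw [e7]
    apply ENNReal.ofReal_le_ofReal
    have e8 : 2 * ((a:ℝ) * W.card) * a ≤ 2 * a ^ 2 * (4 / 3 * (m i / m j) + 1) := by
      have : 2 * ((a:ℝ) * W.card) * a = 2 * a ^ 2 * W.card := by ring
      rw [this]
      exact mul_le_mul_of_nonneg_left hcard (by positivity)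
    apply mul_le_mul_of_nonneg_left _ (by positivity)
    linarith
  have hk : ∀ k ∈ Finset.Icc 1 (N i), ∑ l ∈ Finset.Icc 1 (N j), JJ P a A X i k j l ≤
      ∑ l ∈ Finset.Icc 1 (N j), ENNReal.ofReal (r k l) +
        ENNReal.ofReal (κ * m j * (2 * a ^ 2 * (4 / 3 * (m i / m j) + 1) + 2)) := by
    intro k hk
    rw [← Finset.sum_filter_add_sum_filter_not (Finset.Icc 1 (N j))
      (fun l => 2 * M * m i ≤ D k l) (fun l => JJ P a A X i k j l)]
    apply add_le_add _ (hW k hk)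
    calc ∑ l ∈ (Finset.Icc 1 (N j)).filter (fun l => 2 * M * m i ≤ D k l), JJ P a A X i k j l
        ≤ ∑ l ∈ (Finset.Icc 1 (N j)).filter (fun l => 2 * M * m i ≤ D k l),
          ENNReal.ofReal (r k l) := by
          apply Finset.sum_le_sum
          intro l hl
          rw [Finset.mem_filter] at hl
          exact hJ k hk l hl.1 hl.2
      _ ≤ _ := Finset.sum_le_sum_of_subset (Finset.filter_subset _ _)
  refine (Finset.sum_le_sum hk).trans ?_
  rw [Finset.sum_add_distrib, sumsum_ofReal _ _ r (fun k _ l _ => hr k l), Finset.sum_const,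
    nsmul_eq_mul, Nat.card_Icc, Nat.add_sub_cancel, ENNReal.ofReal_add (by
      have : 0 ≤ Real.log (N i) := Real.log_natCast_nonneg _
      positivity) (by positivity)]
  apply add_le_add
  · apply ENNReal.ofReal_le_ofReal
    rw [Finset.sum_comm]
    calc ∑ l ∈ Finset.Icc 1 (N j), ∑ k ∈ Finset.Icc 1 (N i), r k l
        ≤ ∑ l ∈ Finset.Icc 1 (N j), c * (5 * (1 + Real.log (N i))) := by
          apply Finset.sum_le_sum
          intro l _
          change ∑ k ∈ Finset.Icc 1 (N i),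
            c * (if (2/3:ℝ) ≤ |(k:ℝ) - x l| then 1/|(k:ℝ) - x l| else 0) ≤ _
          rw [← Finset.mul_sum]
          exact mul_le_mul_of_nonneg_left (twosided (N i) (x l)) hc
      _ = _ := by
        rw [Finset.sum_const, nsmul_eq_mul, Nat.card_Icc, Nat.add_sub_cancel]
  · rw [ENNReal.ofReal_mul (Nat.cast_nonneg _), ENNReal.ofReal_natCast]

theorem pf_SME : T_SME := by
  intro κ C₀ M hκ hC₀ hM
  have hκR : (0:ℝ) < κ := hκ
  have hCR : (1:ℝ) ≤ C₀ := by exact_mod_cast hC₀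
  refine ⟨48 * (κ * C₀ + 1), by positivity, ?_⟩
  intro Ω _ P _ I n N m a ρ A X ha hI hS hE hsm
  have haR : (0:ℝ) < a := ha
  have hMR : (1:ℝ) ≤ M := by exact_mod_cast hM
  have hIR : (1:ℝ) ≤ I := by exact_mod_cast hI
  have hn1 : 1 ≤ n := by
    have := hS.pos 0 (by omega)
    rwa [hS.zero] at this
  have hnR : (1:ℝ) ≤ n := by exact_mod_cast hn1
  have hN1 : ∀ i, 1 ≤ i → i ≤ I → 1 ≤ N i := by
    intro i h1 h2
    have h3 := hS.lo i h1 h2
    by_contra hc
    have h4 : N i = 0 := by omega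
    rw [h4, zero_mul] at h3
    omega
  have ha1 : (a:ℝ) ≤ 1 := by
    have h1 := hE.prob 1 1 le_rfl hI le_rfl (hN1 1 le_rfl hI)
    have h2 : (a:ℝ≥0∞) ≤ 1 := h1.trans prob_le_one
    exact_mod_cast h2
  have hmR : ∀ i, i ≤ I → (1:ℝ) ≤ m i := fun i hi => by exact_mod_cast hS.pos i hi
  have hdec : ∀ i j, i < j → j ≤ I → (m j : ℝ) ≤ 2 * a ^ 3 * m i := by
    intro i j hij hj
    have h1 := hS.dec i j hij hj
    have h2 := hS.big
    have h3 : (0:ℝ) < m j := lt_of_lt_of_le one_pos (hmR j hj)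
    have h4 : (m j : ℝ) ≤ ρ * a ^ 3 * m j := by
      have := mul_le_mul_of_nonneg_right h2 h3.le
      linarith
    have h5 : a ^ 3 * (ρ * m j) ≤ (a:ℝ) ^ 3 * (2 * m i) := mul_le_mul_of_nonneg_left h1 (by positivity)
    linarith
  have hmI : (0:ℝ) < m I := lt_of_lt_of_le one_pos (hmR I le_rfl)
  have hL0 : (3/10:ℝ) ≤ 1 + Real.log ((n:ℝ) / m I) := by
    have h1 := hdec 0 I hI le_rfl
    rw [hS.zero] at h1
    have h2 : (a:ℝ)^3 ≤ 1 := pow_le_one₀ haR.le ha1
    have h3 : (m I : ℝ) ≤ 2 * n := by nlinarith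
    have h4 : (1/2:ℝ) ≤ (n:ℝ) / m I := by
      rw [le_div_iff₀ hmI]
      linarith
    have h5 := Real.log_le_log (by norm_num) h4
    have h6 : Real.log (1/2:ℝ) = - Real.log 2 := by
      rw [one_div, Real.log_inv]
    have h7 := Real.log_two_lt_d9
    rw [h6] at h5
    linarith
  have hκC : (0:ℝ) < κ * C₀ := by positivity
  have ha12 : (a:ℝ) ≤ 1/12 := by
    by_contra hc
    push Not at hc
    have h1 : (1:ℝ) ≤ (I:ℝ)^2 := one_le_pow₀ hIR
    have h2 : (4:ℝ) < 48 * (κ * C₀ + 1) * a := by nlinarith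
    have h3 : (4:ℝ) < 48 * (κ * C₀ + 1) * a * I ^ 2 := by nlinarith
    nlinarith
  have hmn : ∀ i, i ≤ I → (m I : ℝ) ≤ m i := by
    intro i hi
    rcases hi.lt_or_eq with h | h
    · have h1 := hdec i I h le_rfl
      have h2 : (a:ℝ)^3 ≤ (1/12)^3 := pow_le_pow_left₀ haR.le ha12 3
      have h3 := hmR i hi
      nlinarith
    · rw [h]
  have hmIn : (m I : ℝ) ≤ n := by
    have := hmn 0 (by omega)
    rwa [hS.zero] at this
  set L : ℝ := 1 + Real.log ((n:ℝ) / m I) with hLd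
  have hL1 : 1 ≤ L := by
    have h1 : (1:ℝ) ≤ (n:ℝ) / m I := by
      rw [le_div_iff₀ hmI]
      linarith
    have := Real.log_nonneg h1
    linarith
  have hup : ∀ i, 1 ≤ i → i ≤ I → (N i : ℝ) * m i ≤ n / (3 * M) := by
    intro i h1 h2
    have h3 := hS.up i h1 h2
    have h4 : (N i : ℝ) * (3 * M * m i) ≤ n := by exact_mod_cast h3
    rw [le_div_iff₀ (by positivity)]
    linarith
  have hlog : ∀ i, 1 ≤ i → i ≤ I → 1 + Real.log (N i) ≤ L := by
    intro i h1 h2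
    have h3 : (1:ℝ) ≤ N i := by exact_mod_cast hN1 i h1 h2
    have h4 : (N i : ℝ) ≤ n / m I := by
      rw [le_div_iff₀ hmI]
      have h5 : (N i : ℝ) * m I ≤ N i * m i := mul_le_mul_of_nonneg_left (hmn i h2) (by linarith)
      have h6 := hup i h1 h2
      have h7 : (n:ℝ) / (3 * M) ≤ n := div_le_self (by linarith) (by linarith)
      linarith
    have := Real.log_le_log (by linarith) h4
    linarith
  -- the two bounds
  have hM0 : (0:ℝ) < M := by linarith
  have hn0 : (0:ℝ) < n := by linarith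
  have hL0' : (0:ℝ) < L := by linarith
  obtain ⟨Dd, hDd⟩ : ∃ Dd : ℝ, Dd = a * κ * n / (3 * M) +
    5 / 3 * (a ^ 2 * κ ^ 2 * C₀ * n * L / M ^ 2) := ⟨_, rfl⟩
  obtain ⟨Oo, hOo⟩ : ∃ Oo : ℝ, Oo = 10 / 9 * (a ^ 2 * κ ^ 2 * C₀ * n * L / M ^ 2) +
    4 / 3 * (a ^ 2 * κ * n / M) := ⟨_, rfl⟩
  have hDd0 : 0 ≤ Dd := by rw [hDd]; positivity
  have hOo0 : 0 ≤ Oo := by rw [hOo]; positivity
  have hlg0 : ∀ i, 0 ≤ 1 + Real.log (N i) := by
    intro i
    have := Real.log_natCast_nonneg (N i)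
    linarith
  have hsame : ∀ i, 1 ≤ i → i ≤ I →
      ∑ k ∈ Finset.Icc 1 (N i), ∑ l ∈ Finset.Icc 1 (N i), JJ P a A X i k i l ≤
        ENNReal.ofReal Dd := by
    intro i h1 h2
    refine (same_scale P M I hM N m a κ C₀ ha A X hE i h1 h2).trans (ENNReal.ofReal_le_ofReal ?_)
    rw [hDd]
    exact real_same a κ C₀ M n L (N i) (m i) _ haR hκR (by linarith) hMR hn0 (hup i h1 h2)
      (hlg0 i) (hlog i h1 h2)
  have hcross : ∀ i j, 1 ≤ i → i < j → j ≤ I →
      ∑ k ∈ Finset.Icc 1 (N i), ∑ l ∈ Finset.Icc 1 (N j), JJ P a A X i k j l ≤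
        ENNReal.ofReal Oo := by
    intro i j h1 h2 h3
    refine (cross_scale P M I hM N m a κ C₀ ha A X hE i j h1 h2 h3 (hS.pos i (by omega))
      (hS.pos j h3)).trans (ENNReal.ofReal_le_ofReal ?_)
    rw [hOo]
    exact real_cross a κ C₀ M n L (N i) (m i) (N j) (m j) _ haR ha12 hκR (by linarith) hMR hn0
      (Nat.cast_nonneg _) (lt_of_lt_of_le one_pos (hmR i (by omega)))
      (lt_of_lt_of_le one_pos (hmR j h3)) (hup i h1 (by omega)) (hup j (by omega) h3)
      (hlg0 i) (hlog i h1 (by omega)) (hdec i j h2 h3)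
  have hG : ∀ i ∈ Finset.Icc 1 I, ∀ j ∈ Finset.Icc 1 I,
      ∑ k ∈ Finset.Icc 1 (N i), ∑ l ∈ Finset.Icc 1 (N j), JJ P a A X i k j l ≤
        ENNReal.ofReal ((if i = j then Dd else 0) + Oo) := by
    intro i hi j hj
    rw [Finset.mem_Icc] at hi hj
    rcases lt_trichotomy i j with h | h | h
    · rw [if_neg (by omega), zero_add]
      exact hcross i j hi.1 h hj.2
    · subst h
      rw [if_pos rfl]
      exact (hsame i hi.1 hi.2).trans (ENNReal.ofReal_le_ofReal (by linarith))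
    · rw [if_neg (by omega), zero_add, Finset.sum_comm]
      have e1 : ∑ l ∈ Finset.Icc 1 (N j), ∑ k ∈ Finset.Icc 1 (N i), JJ P a A X i k j l =
          ∑ l ∈ Finset.Icc 1 (N j), ∑ k ∈ Finset.Icc 1 (N i), JJ P a A X j l i k :=
        Finset.sum_congr rfl (fun l _ => Finset.sum_congr rfl
          (fun k _ => JJ_symm P a A X hE.symm i k j l))
      rw [e1]
      exact hcross j i hj.1 h hi.2
  rw [JJ_sum P I N a A X hE.meas hE.measX]
  refine (Finset.sum_le_sum (fun i hi => Finset.sum_le_sum (fun j hj => hG i hi j hj))).trans ?_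
  rw [sumsum_ofReal _ _ (fun i j => (if i = j then Dd else 0) + Oo) (by
    intro i _ j _
    split_ifs
    · positivity
    · positivity)]
  apply ENNReal.ofReal_le_ofReal
  have hsum : ∑ i ∈ Finset.Icc 1 I, ∑ j ∈ Finset.Icc 1 I, ((if i = j then Dd else 0) + Oo) =
      I * (Dd + I * Oo) := by
    have e1 : ∀ i ∈ Finset.Icc 1 I, ∑ j ∈ Finset.Icc 1 I, ((if i = j then Dd else 0) + Oo) =
        Dd + I * Oo := by
      intro i hi
      rw [Finset.sum_add_distrib, Finset.sum_ite_eq, if_pos hi, Finset.sum_const, nsmul_eq_mul,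
        Nat.card_Icc, Nat.add_sub_cancel]
    rw [Finset.sum_congr rfl e1, Finset.sum_const, nsmul_eq_mul, Nat.card_Icc, Nat.add_sub_cancel]
  rw [hsum]
  rw [hDd, hOo]
  exact real_final a κ C₀ M n L I haR hκR (by linarith) hMR hn0 hL1 hIR hsm

end Pool.Agent.H90.LP
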