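import Pool.Agent.H7.LP.Targets
import Pool.Agent.H71.PermTop

/-!
# The non-archimedean group which acts on structures (module PGT)
-/

set_option autoImplicit false

open Set Filter Topology
open Pool.Agent.H7.LP
open Pool.Agent.H93.CP

namespace Pool.Agent.H90.LP

/-- the group which acts on structures, with its topology -/
def GP : Type := ℕ → Equiv.Perm ℕ

instance : Group GP := inferInstanceAs (Group (ℕ → Equiv.Perm ℕ))

instance : TopologicalSpace GP :=
  @Pi.topologicalSpace ℕ (fun _ => Equiv.Perm ℕ) fun _ => Pool.Agent.H71.permTop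

instance : IsTopologicalGroup GP := by
  let _ : TopologicalSpace (Equiv.Perm ℕ) := Pool.Agent.H71.permTop
  have : IsTopologicalGroup (Equiv.Perm ℕ) := Pool.Agent.H71.isTopologicalGroup_perm
  exact inferInstanceAs (IsTopologicalGroup (ℕ → Equiv.Perm ℕ))

instance : PolishSpace GP := by
  let _ : TopologicalSpace (Equiv.Perm ℕ) := Pool.Agent.H71.permTop
  have : PolishSpace (Equiv.Perm ℕ) := Pool.Agent.H71.polishSpace_perm
  exact inferInstanceAs (PolishSpace (ℕ → Equiv.Perm ℕ))

instance : MeasurableSpace GP := borel GP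

instance : BorelSpace GP := ⟨rfl⟩

lemma isOpen_ev (m a b : ℕ) : IsOpen {π : GP | π m a = b} := by
  let _ : TopologicalSpace (Equiv.Perm ℕ) := Pool.Agent.H71.permTop
  have h1 : Continuous fun π : GP => π m := continuous_apply m
  exact (Pool.Agent.H71.isOpen_apply_eq a b).preimage h1

lemma inv_ap (π : GP) (m a b : ℕ) : (π⁻¹) m a = b ↔ π m b = a := by
  change (π m)⁻¹ a = b ↔ _
  rw [Equiv.Perm.inv_eq_iff_eq, eq_comm]

/-- the pointwise stabilizers -/
def Vn (n : ℕ) : Subgroup GP where
  carrier := {π | ∀ m < n, ∀ a < n, π m a = a}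
  mul_mem' := by
    intro π σ h1 h2 m hm a ha
    change π m (σ m a) = a
    rw [h2 m hm a ha, h1 m hm a ha]
  one_mem' := fun _ _ _ _ => rfl
  inv_mem' := by
    intro π h1 m hm a ha
    rw [inv_ap]
    exact h1 m hm a ha

lemma isOpen_Vn (n : ℕ) : IsOpen (Vn n : Set GP) := by
  have h1 : (Vn n : Set GP) = ⋂ m ∈ Finset.range n, ⋂ a ∈ Finset.range n,
      {π : GP | π m a = a} := by
    ext π
    simp only [mem_iInter, Finset.mem_range, mem_ofPred_eq]
    rfl
  rw [h1]
  exact isOpen_biInter_finset fun m _ => isOpen_biInter_finset fun a _ => isOpen_ev m a a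

lemma nonArch_GP : NonArch GP := by
  intro U hU
  by_contra hcon
  push Not at hcon
  have h1 : ∀ n, ∃ h : GP, h ∈ Vn n ∧ h ∉ U := by
    intro n
    have h2 := hcon (Vn n) (isOpen_Vn n)
    rw [Set.not_subset] at h2
    obtain ⟨h, hh, hh'⟩ := h2
    exact ⟨h, hh, hh'⟩
  choose h hh hh' using h1
  have h2 : Tendsto h atTop (𝓝 (1 : GP)) := by
    let _ : TopologicalSpace (Equiv.Perm ℕ) := Pool.Agent.H71.permTop
    refine tendsto_pi_nhds.2 fun m => ?_
    refine Pool.Agent.H71.tendsto_perm ?_ ?_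
    · intro a
      filter_upwards [Filter.eventually_gt_atTop m, Filter.eventually_gt_atTop a] with n hn hn'
      exact hh n m hn a hn'
    · intro a
      filter_upwards [Filter.eventually_gt_atTop m, Filter.eventually_gt_atTop a] with n hn hn'
      rw [Equiv.symm_apply_eq]
      exact (hh n m hn a hn').symm
  obtain ⟨n, hn⟩ := (h2.eventually_mem hU).exists
  exact hh' n hn

/-- the action on indices -/
def mg (π : GP) (i : ℕ × ℕ) : ℕ × ℕ := (i.1, π i.1 i.2)

lemma mg_mul (π σ : GP) (i : ℕ × ℕ) : mg (π * σ) i = mg π (mg σ i) := rfl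

lemma mg_one (i : ℕ × ℕ) : mg 1 i = i := rfl

/-- the action on structures -/
def act (π : GP) (w : St) : St := fun t => w (mg π⁻¹ t.1, mg π⁻¹ t.2.1, t.2.2)

lemma act_one (w : St) : act 1 w = w := by
  funext t
  unfold act
  rw [inv_one, mg_one, mg_one]

lemma act_mul (π σ : GP) (w : St) : act (π * σ) w = act π (act σ w) := by
  funext t
  unfold act
  rw [mul_inv_rev, mg_mul, mg_mul]

lemma iso_iff (w w' : St) : Iso w w' ↔ ∃ π : GP, act π w = w' := by
  constructor
  · rintro ⟨π, hπ⟩
    refine ⟨(show GP from π)⁻¹, ?_⟩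
    funext ⟨i, j, n⟩
    unfold act
    rw [inv_inv]
    exact (hπ i j n).symm
  · rintro ⟨π, rfl⟩
    exact ⟨(π⁻¹ : GP), fun i j n => rfl⟩

lemma isOpen_mv (i c : ℕ × ℕ) : IsOpen {π : GP | mg π⁻¹ i = c} := by
  by_cases h : i.1 = c.1
  · have h1 : {π : GP | mg π⁻¹ i = c} = {π : GP | π i.1 c.2 = i.2} := by
      ext π
      simp only [mem_ofPred_eq]
      rw [← inv_ap π i.1 i.2 c.2]
      unfold mg
      constructor
      · intro h2
        exact congrArg Prod.snd h2
      · intro h2
        exact Prod.ext h h2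
    rw [h1]
    exact isOpen_ev _ _ _
  · have h1 : {π : GP | mg π⁻¹ i = c} = ∅ := by
      ext π
      simp only [mem_ofPred_eq, mem_empty_iff_false, iff_false]
      intro h2
      apply h
      rw [← h2]
      rfl
    rw [h1]
    exact isOpen_empty

theorem pf_PGT : T_PGT := by
  intro W _ hW
  have hinv : ∀ (π : GP) (w : W), act π w.1 ∈ W := fun π w =>
    hW w.1 _ w.2 ((iso_iff _ _).2 ⟨π, rfl⟩)
  let A : MulAction GP W :=
    { smul := fun π w => ⟨act π w.1, hinv π w⟩
      one_smul := fun w => Subtype.ext (act_one w.1)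
      mul_smul := fun π σ w => Subtype.ext (act_mul π σ w.1) }
  have hsm : ∀ (π : GP) (w : W), (π • w : W).1 = act π w.1 := fun _ _ => rfl
  have hM : MeasurableSMul₂ GP W := by
    refine ⟨?_⟩
    refine Measurable.subtype_mk ?_
    refine measurable_pi_lambda _ fun t => ?_
    obtain ⟨i, j, n⟩ := t
    refine measurable_to_countable' fun b => ?_
    have h1 : (fun p : GP × W => act p.1 p.2.1 (i, j, n)) ⁻¹' {b} =
        ⋃ c : (ℕ × ℕ) × (ℕ × ℕ), ({p : GP × W | mg p.1⁻¹ i = c.1} ∩
          {p : GP × W | mg p.1⁻¹ j = c.2}) ∩ {p : GP × W | p.2.1 (c.1, c.2, n) = b} := by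
      ext p
      simp only [mem_preimage, mem_singleton_iff, mem_iUnion, mem_inter_iff, mem_ofPred_eq]
      constructor
      · intro h2
        exact ⟨(mg p.1⁻¹ i, mg p.1⁻¹ j), ⟨rfl, rfl⟩, h2⟩
      · rintro ⟨c, ⟨h2, h3⟩, h4⟩
        unfold act
        rw [h2, h3]
        exact h4
    rw [h1]
    refine MeasurableSet.iUnion fun c => ((?_ : MeasurableSet _).inter ?_).inter ?_
    · exact (isOpen_mv i c.1).measurableSet.preimage measurable_fst
    · exact (isOpen_mv j c.2).measurableSet.preimage measurable_fst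
    · have h2 : Measurable fun p : GP × W => p.2.1 (c.1, c.2, n) :=
        (measurable_pi_apply _).comp (measurable_subtype_coe.comp measurable_snd)
      exact h2 (measurableSet_singleton b)
  refine ⟨GP, inferInstance, inferInstance, inferInstance, inferInstance, inferInstance,
    inferInstance, A, hM, nonArch_GP, fun w w' => ?_⟩
  rw [iso_iff]
  constructor
  · rintro ⟨π, hπ⟩
    exact ⟨π, by rw [← hsm, hπ]⟩
  · rintro ⟨π, hπ⟩
    exact ⟨π, Subtype.ext (by rw [hsm, hπ])⟩

end Pool.Agent.H90.LP
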