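import Pool.Agent.H7.LP.Targets

/-!
# Codes of the points of an orbit (module SHF)
-/

set_option autoImplicit false

open Set Filter Topology
open Pool.Agent.H7.LP

namespace Pool.Agent.H90.LP

theorem pf_SHF : T_SHF := by
  intro G X _ _ _ _ L M _ Y S x m e w hc hs
  have hN : ∀ (q : ℕ) (g : G), S.Node (m • x) q g ↔ S.Node x q (g * (m : G)) := by
    intro q g
    unfold Sys.Node
    rw [Y.smul, ← tr_mul]
  have hN' : ∀ (q : ℕ), (∃ g, S.Node (m • x) q g) ↔ ∃ g, S.Node x q g := by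
    intro q
    constructor
    · rintro ⟨g, hg⟩
      exact ⟨g * m, (hN q g).1 hg⟩
    · rintro ⟨g, hg⟩
      refine ⟨g * (m : G)⁻¹, (hN q _).2 ?_⟩
      rwa [inv_mul_cancel_right]
  have hq : ∀ a b : G, a * (m : G)⁻¹ * (b * (m : G)⁻¹)⁻¹ = a * b⁻¹ := by
    intro a b
    group
  refine ⟨⟨?_, ?_⟩, ?_⟩
  · intro q g hg j
    rw [hN]
    rw [inv_mul_cancel_right]
    exact hc.node q (g * m) ((hN q g).1 hg) j
  · intro q g hg N
    obtain ⟨j, hj, hj'⟩ := hc.all q (g * m) ((hN q g).1 hg) N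
    refine ⟨j, hj, ?_⟩
    have h1 : g * (e (q, j) * (m : G)⁻¹)⁻¹ = g * m * (e (q, j))⁻¹ := by group
    rw [h1]
    exact hj'
  · intro i j n
    rw [hs i j n, hN', hN']
    simp only [hq]

end Pool.Agent.H90.LP
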