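import Pool.Agent.H62.LP.T2

/-!
# Loop percolation, row SME, part one: harmonic sums
-/

set_option autoImplicit false

open MeasureTheory ProbabilityTheory Filter Topology
open scoped ENNReal NNReal

namespace Pool.Agent.H90.LP

theorem side (N : ℕ) : ∀ y : ℝ, ∑ k ∈ Finset.range N,
    (if (2/3:ℝ) ≤ ((k:ℝ)+1) - y then 1/(((k:ℝ)+1)-y) else 0)
      ≤ 3/2 + ∑ k ∈ Finset.range N, 1/((k:ℝ)+1) := by
  induction N with
  | zero =>
    intro y
    norm_num
  | succ N ih =>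
    intro y
    rw [Finset.sum_range_succ']
    by_cases h : (2/3:ℝ) ≤ 1 - y
    · have h1 : ∀ k ∈ Finset.range N, (if (2/3:ℝ) ≤ (((k+1:ℕ):ℝ)+1) - y then
          1/((((k+1:ℕ):ℝ)+1)-y) else 0) ≤ 1/((k:ℝ)+1) := by
        intro k _
        have hk : (0:ℝ) ≤ k := Nat.cast_nonneg k
        have hk1 : (0:ℝ) < (k:ℝ)+1 := by linarith
        split_ifs with hh
        · apply one_div_le_one_div_of_le hk1
          push_cast
          linarith
        · positivity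
      have h2 : (if (2/3:ℝ) ≤ (((0:ℕ):ℝ)+1) - y then 1/((((0:ℕ):ℝ)+1)-y) else 0) ≤ 3/2 := by
        split_ifs with hh
        · rw [div_le_div_iff₀ (by push_cast; linarith) (by norm_num)]
          push_cast
          linarith
        · norm_num
      have h3 := Finset.sum_le_sum h1
      have h4 : ∑ k ∈ Finset.range N, 1/((k:ℝ)+1) ≤ ∑ k ∈ Finset.range (N+1), 1/((k:ℝ)+1) := by
        rw [Finset.sum_range_succ]
        have : (0:ℝ) ≤ 1/((N:ℝ)+1) := by positivity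
        linarith
      linarith
    · have h2 : (if (2/3:ℝ) ≤ (((0:ℕ):ℝ)+1) - y then 1/((((0:ℕ):ℝ)+1)-y) else 0) = 0 := by
        rw [if_neg]
        push_cast
        intro hh
        exact h (by linarith)
      have h1 := ih (y - 1)
      have h5 : ∑ k ∈ Finset.range N, (if (2/3:ℝ) ≤ (((k+1:ℕ):ℝ)+1) - y then
          1/((((k+1:ℕ):ℝ)+1)-y) else 0) = ∑ k ∈ Finset.range N,
    (if (2/3:ℝ) ≤ ((k:ℝ)+1) - (y-1) then 1/(((k:ℝ)+1)-(y-1)) else 0) := by
        apply Finset.sum_congr rfl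
        intro k _
        have : ((k+1:ℕ):ℝ) + 1 - y = (k:ℝ) + 1 - (y-1) := by push_cast; ring
        rw [this]
      have h4 : ∑ k ∈ Finset.range N, 1/((k:ℝ)+1) ≤ ∑ k ∈ Finset.range (N+1), 1/((k:ℝ)+1) := by
        rw [Finset.sum_range_succ]
        have : (0:ℝ) ≤ 1/((N:ℝ)+1) := by positivity
        linarith
      rw [h5, h2]
      linarith

theorem harm (N : ℕ) : ∑ k ∈ Finset.range N, 1/((k:ℝ)+1) ≤ 1 + Real.log N := by
  have h := harmonic_le_one_add_log N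
  have h2 : ((harmonic N : ℚ) : ℝ) = ∑ k ∈ Finset.range N, 1/((k:ℝ)+1) := by
    unfold harmonic
    push_cast
    apply Finset.sum_congr rfl
    intro k _
    rw [one_div]
  rw [← h2]
  exact h

theorem twosided (N : ℕ) (y : ℝ) : ∑ k ∈ Finset.Icc 1 N,
    (if (2/3:ℝ) ≤ |(k:ℝ) - y| then 1/|(k:ℝ)-y| else 0) ≤ 5*(1+Real.log N) := by
  rcases Nat.eq_zero_or_pos N with h0 | h0
  · subst h0
    simp
  have hlog : 0 ≤ Real.log N := Real.log_nonneg (by exact_mod_cast h0)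
  have h1 : ∑ k ∈ Finset.Icc 1 N, (if (2/3:ℝ) ≤ |(k:ℝ) - y| then 1/|(k:ℝ)-y| else 0)
      = ∑ k ∈ Finset.range N, (if (2/3:ℝ) ≤ |((k:ℝ)+1) - y| then 1/|((k:ℝ)+1)-y| else 0) := by
    rw [Finset.range_eq_Ico, Finset.sum_Ico_eq_sum_range, ← Finset.Ico_add_one_right_eq_Icc,
      Finset.sum_Ico_eq_sum_range]
    simp only [Nat.add_sub_cancel, Nat.sub_zero, Nat.zero_add]
    apply Finset.sum_congr rfl
    intro k _
    push_cast
    rw [add_comm (1:ℝ) (k:ℝ)]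
  rw [h1]
  have h2 : ∀ k ∈ Finset.range N, (if (2/3:ℝ) ≤ |((k:ℝ)+1) - y| then 1/|((k:ℝ)+1)-y| else 0)
      ≤ (if (2/3:ℝ) ≤ ((k:ℝ)+1) - y then 1/(((k:ℝ)+1)-y) else 0)
        + (if (2/3:ℝ) ≤ y - ((k:ℝ)+1) then 1/(y - ((k:ℝ)+1)) else 0) := by
    intro k _
    rcases le_total 0 (((k:ℝ)+1) - y) with h | h
    · rw [abs_of_nonneg h]
      have : 0 ≤ (if (2/3:ℝ) ≤ y - ((k:ℝ)+1) then 1/(y - ((k:ℝ)+1)) else 0) := by
        split_ifs with hh
        · have : 0 < y - ((k:ℝ)+1) := by linarith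
          positivity
        · exact le_rfl
      linarith
    · rw [abs_of_nonpos h]
      have h3 : -(((k:ℝ)+1) - y) = y - ((k:ℝ)+1) := by ring
      rw [h3]
      have : 0 ≤ (if (2/3:ℝ) ≤ ((k:ℝ)+1) - y then 1/(((k:ℝ)+1)-y) else 0) := by
        split_ifs with hh
        · have : 0 < ((k:ℝ)+1) - y := by linarith
          positivity
        · exact le_rfl
      linarith
  refine (Finset.sum_le_sum h2).trans ?_
  rw [Finset.sum_add_distrib]
  have h4 := side N y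
  have h5 : ∑ k ∈ Finset.range N, (if (2/3:ℝ) ≤ y - ((k:ℝ)+1) then 1/(y - ((k:ℝ)+1)) else 0)
      = ∑ k ∈ Finset.range N, (if (2/3:ℝ) ≤ ((k:ℝ)+1) - ((N:ℝ)+1-y) then
        1/(((k:ℝ)+1) - ((N:ℝ)+1-y)) else 0) := by
    rw [← Finset.sum_range_reflect]
    apply Finset.sum_congr rfl
    intro k hk
    rw [Finset.mem_range] at hk
    have h6 : ((N - 1 - k : ℕ):ℝ) = (N:ℝ) - 1 - k := by
      rw [Nat.cast_sub (by omega), Nat.cast_sub (by omega)]
      push_cast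
      ring
    rw [h6]
    have h7 : y - ((N:ℝ) - 1 - k + 1) = (k:ℝ) + 1 - ((N:ℝ)+1-y) := by ring
    rw [h7]
  rw [h5]
  have h8 := side N ((N:ℝ)+1-y)
  have h9 := harm N
  linarith

/-- Number of near points. -/
theorem nearcard (N : ℕ) (x r : ℝ) (hr : 0 ≤ r) :
    (((Finset.Icc 1 N).filter (fun l : ℕ => |(l:ℝ) - x| < r)).card : ℝ) ≤ 2 * r + 1 := by
  have h1 : ((Finset.Icc 1 N).filter (fun l : ℕ => |(l:ℝ) - x| < r)).card
      ≤ (Finset.Icc ⌈x - r⌉ ⌊x + r⌋).card := by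
    apply Finset.card_le_card_of_injOn (fun l : ℕ => (l:ℤ))
    · intro l hl
      rw [Finset.mem_coe, Finset.mem_filter] at hl
      obtain ⟨_, h⟩ := hl
      rw [abs_lt] at h
      rw [Finset.mem_coe, Finset.mem_Icc]
      constructor
      · rw [Int.ceil_le]
        push_cast
        linarith
      · rw [Int.le_floor]
        push_cast
        linarith
    · intro l _ l' _ h
      exact Int.ofNat_inj.mp h
  have h2 : ((Finset.Icc ⌈x - r⌉ ⌊x + r⌋).card : ℝ) ≤ 2 * r + 1 := by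
    rw [Int.card_Icc]
    have h3 : ((⌊x + r⌋ + 1 - ⌈x - r⌉ : ℤ) : ℝ) ≤ 2 * r + 1 := by
      push_cast
      have := Int.floor_le (x + r)
      have := Int.le_ceil (x - r)
      linarith
    rcases le_total 0 (⌊x + r⌋ + 1 - ⌈x - r⌉) with h | h
    · have h4 : (((⌊x + r⌋ + 1 - ⌈x - r⌉).toNat : ℤ) : ℝ) = ((⌊x + r⌋ + 1 - ⌈x - r⌉ : ℤ) : ℝ) := by
        rw [Int.toNat_of_nonneg h]
      have h5 : (((⌊x + r⌋ + 1 - ⌈x - r⌉).toNat : ℕ) : ℝ)
          = (((⌊x + r⌋ + 1 - ⌈x - r⌉).toNat : ℤ) : ℝ) := by push_cast; rfl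
      rw [h5, h4]
      exact h3
    · rw [Int.toNat_of_nonpos h]
      push_cast
      linarith
  exact (Nat.cast_le.mpr h1).trans h2

end Pool.Agent.H90.LP
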