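import Pool.Agent.H90.LP.SMEa

/-!
# Loop percolation, row SME, part two: pairs of events
-/

set_option autoImplicit false

open MeasureTheory ProbabilityTheory Filter Topology
open scoped ENNReal NNReal

namespace Pool.Agent.H90.LP

variable {Ω : Type} [MeasurableSpace Ω]

open Classical in
theorem pairbound (P : Measure Ω) (A B : Set Ω) (hA : MeasurableSet A) (hB : MeasurableSet B)
    (t t' c : ℝ≥0∞) (X : Ω → ℝ≥0∞) (hX : ∀ ω, ω ∈ A → ω ∈ B → X ω ≤ c) :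
    ∫⁻ ω, (if ω ∈ A ∧ ω ∈ B then t * t' * X ω else 0) ∂P ≤ t * t' * c * P (A ∩ B) := by
  rw [← lintegral_indicator_const (hA.inter hB)]
  apply lintegral_mono
  intro ω
  by_cases h : ω ∈ A ∧ ω ∈ B
  · simp only [if_pos h]
    rw [Set.indicator_of_mem (show ω ∈ A ∩ B from h)]
    exact mul_le_mul_right (hX ω h.1 h.2) _
  · simp only [if_neg h]
    exact zero_le

theorem ptw (μ τ Y : ℝ≥0∞) (hμ : μ ≠ ⊤) (hY : Y ≠ ⊤) (hτ : τ ≤ 1) :
    μ * (τ * Y) + 4 * μ * Y ≤ 2 * (μ * μ) * τ + 2 * (Y * Y) + 2 * (μ * μ) := by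
  have hτ' : τ ≠ ⊤ := ne_top_of_le_ne_top ENNReal.one_ne_top hτ
  lift μ to ℝ≥0 using hμ
  lift Y to ℝ≥0 using hY
  lift τ to ℝ≥0 using hτ'
  have h1 : τ ≤ 1 := by exact_mod_cast hτ
  have key : μ * (τ * Y) + 4 * μ * Y ≤ 2 * (μ * μ) * τ + 2 * (Y * Y) + 2 * (μ * μ) := by
    rw [← NNReal.coe_le_coe]
    push_cast
    have hm : (0:ℝ) ≤ μ := μ.coe_nonneg
    have hy : (0:ℝ) ≤ Y := Y.coe_nonneg
    have ht : (0:ℝ) ≤ τ := τ.coe_nonneg
    have ht1 : (τ:ℝ) ≤ 1 := by exact_mod_cast h1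
    have e1 : 0 ≤ (1 - (τ:ℝ)) * (2 * ((Y:ℝ) - μ)^2) :=
      mul_nonneg (by linarith) (by positivity)
    have e2 : 0 ≤ (τ:ℝ) * (2 * ((Y:ℝ) - 5/4 * μ)^2 + 7/8 * (μ:ℝ)^2) :=
      mul_nonneg ht (by positivity)
    nlinarith [e1, e2]
  exact_mod_cast key

theorem quot {x : ℝ≥0∞} {a : ℝ≥0} (ha : 0 < a) (hx : (a:ℝ≥0∞) ≤ x) (hx' : x ≠ ⊤) :
    (a:ℝ≥0∞) / x * x = a ∧ (a:ℝ≥0∞) / x ≤ 1 := by
  have h0 : x ≠ 0 := by
    intro h
    rw [h] at hx
    have : (a:ℝ≥0∞) = 0 := le_antisymm hx zero_le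
    rw [ENNReal.coe_eq_zero] at this
    exact ha.ne' this
  exact ⟨ENNReal.div_mul_cancel h0 hx', ENNReal.div_le_of_le_mul (by rwa [one_mul])⟩

open Classical in
theorem nearbound (P : Measure Ω) [IsProbabilityMeasure P] (A : Set Ω) (hA : MeasurableSet A)
    (B : ℕ → Set Ω) (hB : ∀ l, MeasurableSet (B l)) (W : Finset ℕ) (a : ℝ≥0) (ha : 0 < a)
    (hPA : (a:ℝ≥0∞) ≤ P A) (hPB : ∀ l ∈ W, (a:ℝ≥0∞) ≤ P (B l))
    (hind : ∀ l ∈ W, ∀ l' ∈ W, l ≠ l' → P (B l ∩ B l') = P (B l) * P (B l'))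
    (X : ℕ → Ω → ℝ≥0∞) (c : ℝ≥0∞)
    (hX : ∀ l ∈ W, ∀ ω, ω ∈ A → ω ∈ B l → X l ω ≤ c) :
    ∑ l ∈ W, ∫⁻ ω, (if ω ∈ A ∧ ω ∈ B l then (a:ℝ≥0∞) / P A * ((a:ℝ≥0∞) / P (B l)) * X l ω else 0) ∂P
      ≤ c * (2 * ((a:ℝ≥0∞) * W.card) * a + 2) := by
  rcases W.eq_empty_or_nonempty with hW | hW
  · subst hW
    simp
  set μ : ℝ≥0∞ := (a:ℝ≥0∞) * W.card with hμd
  have hcard : (W.card : ℝ≥0∞) ≠ 0 := by
    rw [Nat.cast_ne_zero]
    exact hW.card_pos.ne'
  have ha0 : (a:ℝ≥0∞) ≠ 0 := by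
    rw [ENNReal.coe_ne_zero]
    exact ha.ne'
  have hμ0 : μ ≠ 0 := mul_ne_zero ha0 hcard
  have hμt : μ ≠ ⊤ := ENNReal.mul_ne_top ENNReal.coe_ne_top (ENNReal.natCast_ne_top _)
  set t : ℝ≥0∞ := (a:ℝ≥0∞) / P A with htd
  obtain ⟨htA, ht1⟩ := quot ha hPA (measure_ne_top P A)
  have hs : ∀ l ∈ W, (a:ℝ≥0∞) / P (B l) * P (B l) = a ∧ (a:ℝ≥0∞) / P (B l) ≤ 1 := fun l hl =>
    quot ha (hPB l hl) (measure_ne_top P _)
  let τ : Ω → ℝ≥0∞ := fun ω => if ω ∈ A then t else 0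
  let y : ℕ → Ω → ℝ≥0∞ := fun l ω => if ω ∈ B l then (a:ℝ≥0∞) / P (B l) else 0
  let Y : Ω → ℝ≥0∞ := fun ω => ∑ l ∈ W, y l ω
  have hτm : Measurable τ := Measurable.ite hA measurable_const measurable_const
  have hym : ∀ l, Measurable (y l) := fun l => Measurable.ite (hB l) measurable_const measurable_const
  have hYm : Measurable Y := Finset.measurable_fun_sum W (fun l _ => hym l)
  have hτYm : Measurable (fun ω => τ ω * Y ω) := hτm.mul hYm
  have hYYm : Measurable (fun ω => Y ω * Y ω) := hYm.mul hYm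
  have h1 : ∑ l ∈ W, ∫⁻ ω, (if ω ∈ A ∧ ω ∈ B l then t * ((a:ℝ≥0∞) / P (B l)) * X l ω else 0) ∂P
      ≤ c * ∫⁻ ω, τ ω * Y ω ∂P := by
    have e1 : c * ∫⁻ ω, τ ω * Y ω ∂P = ∑ l ∈ W, ∫⁻ ω, c * (τ ω * y l ω) ∂P := by
      rw [← lintegral_const_mul c hτYm, ← lintegral_finsetSum]
      · apply lintegral_congr
        intro ω
        change c * (τ ω * ∑ l ∈ W, y l ω) = _
        rw [Finset.mul_sum, Finset.mul_sum]
      · intro l _
        exact (hτm.mul (hym l)).const_mul c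
    rw [e1]
    apply Finset.sum_le_sum
    intro l hl
    apply lintegral_mono
    intro ω
    by_cases h : ω ∈ A ∧ ω ∈ B l
    · simp only [if_pos h]
      have e2 : τ ω = t := if_pos h.1
      have e3 : y l ω = (a:ℝ≥0∞) / P (B l) := if_pos h.2
      rw [e2, e3, mul_comm c]
      exact mul_le_mul_right (hX l hl ω h.1 h.2) _
    · simp only [if_neg h]
      exact zero_le
  refine h1.trans (mul_le_mul_right ?_ c)
  have hEY : ∫⁻ ω, Y ω ∂P = μ := by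
    have e1 : ∫⁻ ω, Y ω ∂P = ∑ l ∈ W, ∫⁻ ω, y l ω ∂P := lintegral_finsetSum _ (fun l _ => hym l)
    rw [e1]
    have e2 : ∀ l ∈ W, ∫⁻ ω, y l ω ∂P = (a:ℝ≥0∞) := by
      intro l hl
      have e3 : ∫⁻ ω, y l ω ∂P = ∫⁻ ω, (B l).indicator (fun _ => (a:ℝ≥0∞) / P (B l)) ω ∂P := by
        apply lintegral_congr
        intro ω
        by_cases h : ω ∈ B l
        · rw [Set.indicator_of_mem h]
          exact if_pos h
        · rw [Set.indicator_of_notMem h]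
          exact if_neg h
      rw [e3, lintegral_indicator_const (hB l)]
      exact (hs l hl).1
    rw [Finset.sum_congr rfl e2, Finset.sum_const, nsmul_eq_mul, mul_comm]
  have hEτ : ∫⁻ ω, τ ω ∂P = a := by
    have e3 : ∫⁻ ω, τ ω ∂P = ∫⁻ ω, A.indicator (fun _ => t) ω ∂P := by
      apply lintegral_congr
      intro ω
      by_cases h : ω ∈ A
      · rw [Set.indicator_of_mem h]
        exact if_pos h
      · rw [Set.indicator_of_notMem h]
        exact if_neg h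
    rw [e3, lintegral_indicator_const hA]
    exact htA
  have hEYY : ∫⁻ ω, Y ω * Y ω ∂P ≤ μ * μ + μ := by
    have e1 : ∫⁻ ω, Y ω * Y ω ∂P = ∑ l ∈ W, ∑ l' ∈ W, ∫⁻ ω, y l ω * y l' ω ∂P := by
      have e2 : ∀ ω, Y ω * Y ω = ∑ l ∈ W, ∑ l' ∈ W, y l ω * y l' ω := fun ω =>
        Finset.sum_mul_sum W W (fun l => y l ω) (fun l => y l ω)
      rw [lintegral_congr e2, lintegral_finsetSum]
      · apply Finset.sum_congr rfl
        intro l _
        rw [lintegral_finsetSum]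
        intro l' _
        exact (hym l).mul (hym l')
      · intro l _
        exact Finset.measurable_fun_sum W (fun l' _ => (hym l).mul (hym l'))
    have e3 : ∀ l ∈ W, ∀ l' ∈ W, ∫⁻ ω, y l ω * y l' ω ∂P ≤
        (a:ℝ≥0∞) * a + (if l = l' then (a:ℝ≥0∞) else 0) := by
      intro l hl l' hl'
      have e4 : ∫⁻ ω, y l ω * y l' ω ∂P =
          (a:ℝ≥0∞) / P (B l) * ((a:ℝ≥0∞) / P (B l')) * P (B l ∩ B l') := by
        rw [← lintegral_indicator_const ((hB l).inter (hB l'))]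
        apply lintegral_congr
        intro ω
        by_cases h : ω ∈ B l
        · by_cases h' : ω ∈ B l'
          · rw [Set.indicator_of_mem (show ω ∈ B l ∩ B l' from ⟨h, h'⟩)]
            have f1 : y l ω = (a:ℝ≥0∞) / P (B l) := if_pos h
            have f2 : y l' ω = (a:ℝ≥0∞) / P (B l') := if_pos h'
            rw [f1, f2]
          · rw [Set.indicator_of_notMem (fun hh => h' hh.2)]
            have f2 : y l' ω = 0 := if_neg h'
            rw [f2, mul_zero]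
        · rw [Set.indicator_of_notMem (fun hh => h hh.1)]
          have f2 : y l ω = 0 := if_neg h
          rw [f2, zero_mul]
      rw [e4]
      by_cases h : l = l'
      · subst h
        rw [Set.inter_self, if_pos rfl, mul_assoc, (hs l hl).1]
        calc (a:ℝ≥0∞) / P (B l) * a ≤ 1 * a := mul_le_mul_left (hs l hl).2 _
          _ = a := one_mul _
          _ ≤ _ := le_add_self
      · rw [if_neg h, add_zero, hind l hl l' hl' h]
        apply le_of_eq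
        calc (a:ℝ≥0∞) / P (B l) * ((a:ℝ≥0∞) / P (B l')) * (P (B l) * P (B l'))
            = ((a:ℝ≥0∞) / P (B l) * P (B l)) * ((a:ℝ≥0∞) / P (B l') * P (B l')) := by ring
          _ = a * a := by rw [(hs l hl).1, (hs l' hl').1]
    rw [e1]
    calc ∑ l ∈ W, ∑ l' ∈ W, ∫⁻ ω, y l ω * y l' ω ∂P
        ≤ ∑ l ∈ W, ∑ l' ∈ W, ((a:ℝ≥0∞) * a + (if l = l' then (a:ℝ≥0∞) else 0)) :=
          Finset.sum_le_sum (fun l hl => Finset.sum_le_sum (fun l' hl' => e3 l hl l' hl'))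
      _ = μ * μ + μ := by
          have e5 : ∀ l ∈ W, ∑ l' ∈ W, ((a:ℝ≥0∞) * a + (if l = l' then (a:ℝ≥0∞) else 0))
              = W.card * (a * a) + a := by
            intro l hl
            rw [Finset.sum_add_distrib, Finset.sum_const, nsmul_eq_mul, Finset.sum_ite_eq, if_pos hl]
          rw [Finset.sum_congr rfl e5, Finset.sum_const, nsmul_eq_mul, hμd]
          ring
  have hYt : ∀ ω, Y ω ≠ ⊤ := by
    intro ω
    apply (ENNReal.sum_lt_top.mpr ?_).ne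
    intro l hl
    change (if ω ∈ B l then (a:ℝ≥0∞) / P (B l) else 0) < ⊤
    split_ifs
    · exact lt_of_le_of_lt (hs l hl).2 ENNReal.one_lt_top
    · exact ENNReal.zero_lt_top
  have hτ1 : ∀ ω, τ ω ≤ 1 := by
    intro ω
    change (if ω ∈ A then t else 0) ≤ 1
    split_ifs
    · exact ht1
    · exact zero_le
  set E : ℝ≥0∞ := ∫⁻ ω, τ ω * Y ω ∂P with hE
  have hmain : ∫⁻ ω, (μ * (τ ω * Y ω) + 4 * μ * Y ω) ∂P ≤
      ∫⁻ ω, (2 * (μ * μ) * τ ω + 2 * (Y ω * Y ω) + 2 * (μ * μ)) ∂P :=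
    lintegral_mono (fun ω => ptw μ (τ ω) (Y ω) hμt (hYt ω) (hτ1 ω))
  have hl1 : ∫⁻ ω, (μ * (τ ω * Y ω) + 4 * μ * Y ω) ∂P = μ * E + 4 * μ * μ := by
    rw [lintegral_add_left (hτYm.const_mul μ), lintegral_const_mul _ hτYm,
      lintegral_const_mul _ hYm, hEY]
  have hl2 : ∫⁻ ω, (2 * (μ * μ) * τ ω + 2 * (Y ω * Y ω) + 2 * (μ * μ)) ∂P
      = 2 * (μ * μ) * a + 2 * ∫⁻ ω, Y ω * Y ω ∂P + 2 * (μ * μ) := by
    have hm1 : Measurable (fun ω => 2 * (μ * μ) * τ ω) := hτm.const_mul _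
    have hm2 : Measurable (fun ω => 2 * (μ * μ) * τ ω + 2 * (Y ω * Y ω)) :=
      hm1.add (hYYm.const_mul _)
    rw [lintegral_add_left hm2, lintegral_add_left hm1, lintegral_const_mul _ hτm,
      lintegral_const_mul _ hYYm, hEτ, lintegral_const, measure_univ, mul_one]
  rw [hl1, hl2] at hmain
  have hfin : μ * E + 4 * μ * μ ≤ μ * (2 * μ * a + 2) + 4 * μ * μ := by
    refine hmain.trans ?_
    calc 2 * (μ * μ) * a + 2 * ∫⁻ ω, Y ω * Y ω ∂P + 2 * (μ * μ)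
        ≤ 2 * (μ * μ) * a + 2 * (μ * μ + μ) + 2 * (μ * μ) := by gcongr
      _ = μ * (2 * μ * a + 2) + 4 * μ * μ := by ring
  have h4 : 4 * μ * μ ≠ ⊤ := ENNReal.mul_ne_top (ENNReal.mul_ne_top (by norm_num) hμt) hμt
  have h5 := (ENNReal.add_le_add_iff_right h4).mp hfin
  exact (ENNReal.mul_le_mul_iff_right hμ0 hμt).mp h5

end Pool.Agent.H90.LP
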